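import Pool.Agent.MWS.StmtsA

set_option autoImplicit false

namespace Pool.Agent.MWS.H60

open Pool.Agent.Helper14_MV Pool.Agent.Helper2_MV Pool.Agent.MVO Pool.Agent.MWL

theorem deg_mono {k : ℕ} {a b : ℕ → ℕ} (h : ∀ j ≤ k, a j ≤ b j) : deg k a ≤ deg k b := by
  unfold deg
  apply Finset.sum_le_sum
  intro j hj
  rw [Finset.mem_range] at hj
  exact h j (by omega)

theorem sat (trn : MWL.TrnStmt) (abs : MWL.AbsStmt) (lrn : LrnStmt) (chk : ChkStmt)
    (dbl : DblStmt) (dba : DbaStmt) : SatStmt := by
  intro β θ hb hit hle k B hB i hi x hx hdeg hab P Q hPQ hcase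
  by_cases h2 : 2 ≤ (B i).count x
  · have hmem : x ∈ B i := List.count_pos_iff.1 (by omega)
    rcases hcase with h | ⟨P', hP'⟩
    · exact absurd hmem h
    · have h1 : B i = P' ++ x :: Q := by
        rw [hPQ, hP', List.append_assoc, List.singleton_append]
      have h3 := dbl β hit k B hB i hi x P' Q h1 h2 3 (by norm_num)
      have h4 : P' ++ List.replicate 3 x ++ Q = P ++ x :: x :: Q := by
        rw [hP']
        simp [List.replicate]
      rw [h4] at h3
      exact hle _ _ h3
  · have hcnt : (B i).count x ≤ 1 := by omega
    -- the splittings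
    have hsp : ∀ j, ∃ p : List ℕ × List ℕ, (x ∉ B j ∧ B j = p.1 ++ p.2) ∨
        (x ∈ B j ∧ B j = p.1 ++ x :: p.2) := by
      intro j
      by_cases hj : x ∈ B j
      · obtain ⟨s, t, h⟩ := List.append_of_mem hj
        exact ⟨(s, t), Or.inr ⟨hj, h⟩⟩
      · exact ⟨(B j, []), Or.inl ⟨hj, by simp⟩⟩
    have hspi : ∃ p : List ℕ × List ℕ, ((x ∉ B i ∧ B i = p.1 ++ p.2) ∨
        (x ∈ B i ∧ B i = p.1 ++ x :: p.2)) ∧
        p.1 ++ List.replicate (min ((B i).count x) 2 + 2) x ++ p.2 = P ++ x :: x :: Q := by
      rcases hcase with h | ⟨P', hP'⟩
      · refine ⟨(P, Q), Or.inl ⟨h, hPQ⟩, ?_⟩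
        have h0 : (B i).count x = 0 := List.count_eq_zero.2 h
        rw [h0]
        simp [List.replicate]
      · have h1 : B i = P' ++ x :: Q := by
          rw [hPQ, hP', List.append_assoc, List.singleton_append]
        have hmem : x ∈ B i := by
          rw [h1]
          simp
        refine ⟨(P', Q), Or.inr ⟨hmem, h1⟩, ?_⟩
        have h0 : (B i).count x = 1 := by
          have := List.count_pos_iff.2 hmem
          omega
        rw [h0, hP']
        simp [List.replicate]
    choose p0 hp0 using hsp
    obtain ⟨q0, hq0, hq1⟩ := hspi
    let PP : ℕ → List ℕ := fun j => if j = i then q0.1 else (p0 j).1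
    let QQ : ℕ → List ℕ := fun j => if j = i then q0.2 else (p0 j).2
    have hPP : ∀ j, (x ∉ B j ∧ B j = PP j ++ QQ j) ∨ (x ∈ B j ∧ B j = PP j ++ x :: QQ j) := by
      intro j
      by_cases hj : j = i
      · subst hj
        simp only [PP, QQ, if_true]
        exact hq0
      · simp only [PP, QQ, if_neg hj]
        exact hp0 j
    let c : ℕ → ℕ := fun j => min ((B j).count x) 2
    have hblk : ∀ j, PP j ++ List.replicate (c j) x ++ QQ j = B j ∨
        ∃ (x1 : ℕ) (P Q : List ℕ) (n : ℕ), 1 ≤ n ∧ 2 ≤ (B j).count x1 ∧
          B j = P ++ x1 :: Q ∧ PP j ++ List.replicate (c j) x ++ QQ j =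
            P ++ List.replicate n x1 ++ Q := by
      intro j
      rcases hPP j with ⟨h1, h3⟩ | ⟨h1, h3⟩
      · left
        have h0 : c j = 0 := by
          have := List.count_eq_zero.2 h1
          simp only [c]
          omega
        rw [h0]
        simpa using h3.symm
      · have h4 := List.count_pos_iff.2 h1
        by_cases h5 : 2 ≤ (B j).count x
        · right
          refine ⟨x, PP j, QQ j, 2, by norm_num, h5, h3, ?_⟩
          have h0 : c j = 2 := by
            simp only [c]
            omega
          rw [h0]
        · left
          have h0 : c j = 1 := by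
            simp only [c]
            omega
          rw [h0]
          simpa using h3.symm
    -- the vector
    have hR : (FC.ofFIC θ).R k (ty B x) c := by
      apply (abs 1 (FC.ofFIC θ) (lrn β θ hb hle) k (ty B x)).2
      intro j _
      by_cases h5 : (B j).count x ≤ 2
      · left
        simp only [ty, c]
        omega
      · right
        refine ⟨⟨?_, j, le_refl j, ?_⟩, ⟨?_, j, le_refl j, ?_⟩, Nat.modEq_one⟩
        · simp only [ty]
          omega
        · simp only [ty]
          omega
        · simp only [c]
          omega
        · simp only [c]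
          omega
    have habc : Ab 1 (FC.ofFIC θ) k c i := ((trn 1 (FC.ofFIC θ) k (ty B x) i).1 c hR).1 hab
    have h6 := chk θ k c (ad 1 c i) x PP QQ habc
    have h7 : RR β (asm k B) (asm k (fun j => PP j ++ List.replicate (c j) x ++ QQ j)) :=
      dba β hit k B _ hB (fun j _ => hblk j)
    -- the new family
    have hcount : ∀ j c', (B j).count c' ≤
        (Function.update B i (P ++ x :: x :: Q) j).count c' := by
      intro j c'
      by_cases hj : j = i
      · subst hj
        rw [Function.update_self, hPQ, List.count_append, List.count_append, List.count_cons,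
          List.count_cons]
        omega
      · rw [Function.update_of_ne hj]
    have hB3 : OkB k (Function.update B i (P ++ x :: x :: Q)) := by
      have hm : ∀ j ≤ k, ∀ c' ∈ Function.update B i (P ++ x :: x :: Q) j, c' = x ∨ c' ∈ B j := by
        intro j _ c' hc'
        by_cases hj : j = i
        · subst hj
          rw [Function.update_self] at hc'
          rw [hPQ]
          simp only [List.mem_append, List.mem_cons] at hc' ⊢
          tauto
        · rw [Function.update_of_ne hj] at hc'
          exact Or.inr hc'
      refine ⟨?_, ?_⟩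
      · intro j hj c' hc'
        rcases hm j hj c' hc' with h | h
        · rw [h]
          exact hx
        · exact hB.ok j hj c' h
      · intro j hj c' hc'
        have h8 : deg k (fun j => (B j).count c') ≤
            deg k (fun j => (Function.update B i (P ++ x :: x :: Q) j).count c') :=
          deg_mono (fun j _ => hcount j c')
        rcases hm j hj c' hc' with h | h
        · rw [h] at h8 ⊢
          exact hdeg.trans h8
        · exact (hB.ml j hj c' h).trans h8
    have h9 : RR β (asm k (Function.update B i (P ++ x :: x :: Q)))
        (asm k (fun j => PP j ++ List.replicate (ad 1 c i j) x ++ QQ j)) := by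
      apply dba β hit k _ _ hB3
      intro j _
      by_cases hj : j = i
      · left
        subst hj
        rw [Function.update_self]
        have h10 : ad 1 c j j = min ((B j).count x) 2 + 2 := by
          simp [ad, c]
        rw [h10]
        simp only [PP, QQ, if_true]
        exact hq1
      · rw [Function.update_of_ne hj]
        have h10 : ad 1 c i j = c j := by
          simp [ad, hj]
        rw [h10]
        exact hblk j
    exact θ.trans (hle _ _ h7) (θ.trans h6 (hle _ _ h9.symm))

end Pool.Agent.MWS.H60
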